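import Pool.Agent.PRc.Ex
import Pool.Agent.LPC.ZFTools

/-!
# Numbers of points of the fibres over the line (definitions)

ALL CURVES, stage 3, part (F). `P` is a relation on `(x, t; a)`: `x` one unknown, `t : κ → k`
further unknowns,
`a : ι → k` parameters.

* `pt x t a`: the vector `(x, t; a)`;
* `FibFin P p a`: over the algebraic closure of the prime field all fibres over `x` are finite;
* `nf P p a x`: the number of the `t` over the prime field;
* `LineHyp`: for decidable relations with finite fibres the number of the points over the prime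
field is
  definable and the fibres have a uniform bound (proved in part (S) of the project).
-/

set_option autoImplicit false

noncomputable section

namespace Pool.Agent.CvE

open Pool.Agent.PRc Pool.Agent.Grz

/-- the vector `(x, t; a)` -/
def pt {k κ ι : Type} (x : k) (t : κ → k) (a : ι → k) : (Unit ⊕ κ) ⊕ ι → k :=
  Sum.elim (Sum.elim (fun _ => x) t) a

/-- all geometric fibres are finite -/
def FibFin {κ ι : Type} (P : FR ((Unit ⊕ κ) ⊕ ι)) (p : ℕ) [Fact p.Prime] (a : ι → ℕ) : Prop :=
  ∀ x : AlgebraicClosure (ZMod p), {t : κ → AlgebraicClosure (ZMod p) |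
    P (AlgebraicClosure (ZMod p)) (pt x t fun i => (a i : AlgebraicClosure (ZMod p)))}.Finite

/-- the number of the points of the fibre over the prime field -/
def nf {κ ι : Type} (P : FR ((Unit ⊕ κ) ⊕ ι)) (p : ℕ) [Fact p.Prime] (a : ι → ℕ)
    (x : ZMod p) : ℕ :=
  Nat.card {t : κ → ZMod p // P (ZMod p) (pt x t fun i => (a i : ZMod p))}

/-- The number of the points over the prime field is definable, for relations with finite
geometric fibres over the line. -/
def LineHyp : Prop := ∀ (κ ι : Type) [Finite κ] [Finite ι] (P : FR ((Unit ⊕ κ) ⊕ ι)), PRD P →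
  ∃ (N : ℕ → (ι → ℕ) → ℕ) (B : ℕ),
    (∀ {n : ℕ} {p : (Fin n → ℕ) → ℕ} {a : ι → (Fin n → ℕ) → ℕ}, DFun n p →
      (∀ i, DFun n (a i)) → DFun n (fun v => N (p v) fun i => a i v)) ∧
    ∀ (p : ℕ) [Fact p.Prime] (a : ι → ℕ), FibFin P p a →
      (∀ x, nf P p a x ≤ B) ∧ N p a = Nat.card {z : ZMod p × (κ → ZMod p) //
        P (ZMod p) (pt z.1 z.2 fun i => (a i : ZMod p))}

/-- indices of tuples: `m i` points of the fibre of the `i`-th relation -/
abbrev Ti {s : ℕ} (κ : Fin s → Type) (m : Fin s → ℕ) : Type := Σ i : Fin s, Fin (m i) × κ i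

/-- tuples of distinct points of the fibres -/
def tup {s : ℕ} {κ : Fin s → Type} {ι : Type} (P : ∀ i, FR ((Unit ⊕ κ i) ⊕ ι))
    (m : Fin s → ℕ) : FR ((Unit ⊕ Ti κ m) ⊕ ι) := fun k _ u =>
  (∀ i (j : Fin (m i)), P i k (pt (u (.inl (.inl ()))) (fun l => u (.inl (.inr ⟨i, j, l⟩)))
    fun e => u (.inr e))) ∧
  ∀ i (j j' : Fin (m i)), j ≠ j' → ∃ l, u (.inl (.inr ⟨i, j, l⟩)) ≠ u (.inl (.inr ⟨i, j', l⟩))

/-- the weights of the inversion formula -/
def wt (B r m : ℕ) : ℤ :=
  if r ≤ m then (-1) ^ (m - r) * (B.factorial / (m - r).factorial : ℕ) else 0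

end Pool.Agent.CvE
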