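import Pool.Agent.CvE.Defs

/-!
# Package CvE-Inv: the inversion formula

`inv_one`: for `N ≤ B`, `r ≤ B`: `∑_{m ≤ B} wt B r m * descFactorial N m = r! B!` if `N = r`, and
`0` otherwise. The terms with `m > N` vanish.
For `N < r` all terms vanish. For `N ≥ r`, `m = r + j`: `descFactorial N m = N! / (N - m)!`, so
the sum is
`B! (N! / (N - r)!) ∑_{j ≤ N - r} (-1) ^ j C(N - r, j)` (`Int.alternating_sum_range_choose`),
which is `0` for `N > r` and `B! r!` for
`N = r`. (`B.factorial / j.factorial` is an exact division for `j ≤ B`: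
`Nat.factorial_dvd_factorial`.)

`inv_all`: product over `i`: `∑_{m ∈ (range (B + 1)) ^ s} (∏ wt B (r i) (m i)) ∏ descFactorial (N
i) (m i) = ∏ (r i)! B!` if `N = r` and `0`
otherwise (`Finset.prod_univ_sum`, `Fintype.piFinset`).
-/

set_option autoImplicit false

noncomputable section

namespace Pool.Agent.CvE

private theorem term_Inv {B N r : ℕ} (hN : N ≤ B) (hr : r ≤ N) (x : ℕ) :
    wt B r (r + x) * (N.descFactorial (r + x) : ℤ) =
      ((-1) ^ x * ((N - r).choose x : ℤ)) * ((N.descFactorial r * B.factorial : ℕ) : ℤ) := by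
  unfold wt
  rw [if_pos (Nat.le_add_right r x), Nat.add_sub_cancel_left]
  rcases Nat.lt_or_ge (N - r) x with hx | hx
  · rw [Nat.choose_eq_zero_of_lt hx, Nat.descFactorial_of_lt (by omega)]
    simp
  · have hd : x.factorial ∣ B.factorial := Nat.factorial_dvd_factorial (by omega)
    obtain ⟨q, hq⟩ := hd
    have hdiv : B.factorial / x.factorial = q := by
      rw [hq, Nat.mul_div_cancel_left _ (Nat.factorial_pos x)]
    have h1 : N.descFactorial (r + x) = (N - r).descFactorial x * N.descFactorial r := by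
      have h2 := Nat.descFactorial_mul_descFactorial (n := N) (k := r) (m := r + x)
        (Nat.le_add_right r x)
      rw [Nat.add_sub_cancel_left] at h2
      rw [← h2]
    rw [hdiv, h1, Nat.descFactorial_eq_factorial_mul_choose (N - r) x, hq]
    push_cast
    ring

theorem inv_one {B N r : ℕ} (hN : N ≤ B) (hr : r ≤ B) :
    ∑ m ∈ Finset.range (B + 1), wt B r m * (N.descFactorial m : ℤ) =
      if N = r then ((r.factorial * B.factorial : ℕ) : ℤ) else 0 := by
  rcases Nat.lt_or_ge N r with hlt | hge
  · rw [if_neg (by omega)]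
    refine Finset.sum_eq_zero fun m _ => ?_
    unfold wt
    split_ifs with h
    · rw [Nat.descFactorial_of_lt (by omega)]
      simp
    · simp
  · have hB : B + 1 = r + (B + 1 - r) := by omega
    rw [hB, Finset.sum_range_add]
    have h0 : ∑ m ∈ Finset.range r, wt B r m * (N.descFactorial m : ℤ) = 0 := by
      refine Finset.sum_eq_zero fun m hm => ?_
      rw [Finset.mem_range] at hm
      unfold wt
      rw [if_neg (by omega), zero_mul]
    rw [h0, zero_add, Finset.sum_congr rfl fun x _ => term_Inv hN hge x, ← Finset.sum_mul]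
    have h1 : ∑ x ∈ Finset.range (B + 1 - r), ((-1 : ℤ) ^ x * ((N - r).choose x : ℤ)) =
        ∑ x ∈ Finset.range (N - r + 1), ((-1 : ℤ) ^ x * ((N - r).choose x : ℤ)) := by
      symm
      refine Finset.sum_subset (fun x hx => ?_) fun x _ hx => ?_
      · rw [Finset.mem_range] at hx ⊢
        omega
      · rw [Finset.mem_range] at hx
        rw [Nat.choose_eq_zero_of_lt (by omega)]
        simp
    rw [h1, Int.alternating_sum_range_choose]
    by_cases h : N = r
    · subst h
      rw [if_pos (Nat.sub_self N), if_pos rfl, Nat.descFactorial_self, one_mul]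
    · rw [if_neg (by omega), if_neg h, zero_mul]

theorem inv_all {s B : ℕ} {N r : Fin s → ℕ} (hN : ∀ i, N i ≤ B) (hr : ∀ i, r i ≤ B) :
    ∑ m ∈ Fintype.piFinset fun _ : Fin s => Finset.range (B + 1),
      (∏ i, wt B (r i) (m i)) * ((∏ i, (N i).descFactorial (m i) : ℕ) : ℤ) =
      if N = r then ((∏ i, ((r i).factorial * B.factorial) : ℕ) : ℤ) else 0 := by
  have h1 : ∀ m : Fin s → ℕ,
      (∏ i, wt B (r i) (m i)) * ((∏ i, (N i).descFactorial (m i) : ℕ) : ℤ) =
        ∏ i, (wt B (r i) (m i) * ((N i).descFactorial (m i) : ℤ)) := fun m => by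
    rw [Nat.cast_prod, Finset.prod_mul_distrib]
  rw [Finset.sum_congr rfl fun m _ => h1 m,
    ← Finset.prod_univ_sum (fun _ : Fin s => Finset.range (B + 1))
      (fun i k => wt B (r i) k * ((N i).descFactorial k : ℤ)),
    Finset.prod_congr rfl fun i _ => inv_one (hN i) (hr i)]
  by_cases h : N = r
  · subst h
    rw [if_pos rfl, Nat.cast_prod]
    exact Finset.prod_congr rfl fun i _ => if_pos rfl
  · rw [if_neg h]
    have h2 : ∃ i, N i ≠ r i := by
      by_contra hc
      push Not at hc
      exact h (funext hc)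
    obtain ⟨i, hi⟩ := h2
    exact Finset.prod_eq_zero (Finset.mem_univ i) (if_neg hi)

end Pool.Agent.CvE
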