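import Pool.Agent.CvE.Defs

/-!
# Package CvE-TupC: the number of the tuples

`tup_card`: the points `(x, t)` of `tup P m` over the prime field: sum over `x` (`Nat.card` of a
sigma type; `ZMod p` is finite) of the
number of the families of injections `Fin (m i) ↪ {t | P i (x, t)}`, which is `∏_i (nf (P i)
x).descFactorial (m i)`
(`Fintype.card_embedding_eq`, `Nat.card_pi`). Distinct points: two vectors are different iff they
differ at some `l`.
-/

set_option autoImplicit false

noncomputable section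

namespace Pool.Agent.CvE

open Pool.Agent.PRc Pool.Agent.Grz

variable {s : ℕ} {κ : Fin s → Type} [∀ i, Finite (κ i)] {ι : Type}
  (P : ∀ i, FR ((Unit ⊕ κ i) ⊕ ι))

omit [∀ i, Finite (κ i)] in
/-- the tuples of a fibre are the families of injections -/
private def equiv_TupC (m : Fin s → ℕ) (p : ℕ) [Fact p.Prime] (a : ι → ℕ) :
    {z : ZMod p × (Ti κ m → ZMod p) //
      tup P m (ZMod p) (pt z.1 z.2 fun i => (a i : ZMod p))} ≃
    Σ x : ZMod p, ∀ i, (Fin (m i) ↪ {t : κ i → ZMod p //
      P i (ZMod p) (pt x t fun e => (a e : ZMod p))}) where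
  toFun z := ⟨z.1.1, fun i => ⟨fun j => ⟨fun l => z.1.2 ⟨i, j, l⟩, z.2.1 i j⟩, by
    intro j j' hjj
    by_contra hne
    obtain ⟨l, hl⟩ := z.2.2 i j j' hne
    exact hl (congrFun (congrArg Subtype.val hjj) l)⟩⟩
  invFun w := ⟨(w.1, fun q => (w.2 q.1 q.2.1).1 q.2.2), by
    refine ⟨fun i j => (w.2 i j).2, fun i j j' hne => ?_⟩
    by_contra hcon
    push Not at hcon
    exact hne ((w.2 i).injective (Subtype.ext (funext hcon)))⟩
  left_inv z := rfl
  right_inv w := rfl

theorem tup_card (m : Fin s → ℕ) (p : ℕ) [Fact p.Prime] (a : ι → ℕ) :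
    Nat.card {z : ZMod p × (Ti κ m → ZMod p) //
      tup P m (ZMod p) (pt z.1 z.2 fun i => (a i : ZMod p))} =
    ∑ x : ZMod p, ∏ i, (nf (P i) p a x).descFactorial (m i) := by
  classical
  rw [Nat.card_congr (equiv_TupC P m p a), Nat.card_sigma]
  refine Finset.sum_congr rfl fun x _ => ?_
  rw [Nat.card_pi]
  refine Finset.prod_congr rfl fun i _ => ?_
  have := Fintype.ofFinite {t : κ i → ZMod p // P i (ZMod p) (pt x t fun e => (a e : ZMod p))}
  rw [Nat.card_eq_fintype_card, Fintype.card_embedding_eq, Fintype.card_fin, nf,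
    Nat.card_eq_fintype_card]

end Pool.Agent.CvE
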