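import Pool.Agent.CvE.Tup
import Pool.Agent.CvE.TupC
import Pool.Agent.CvE.Inv

/-!
# Package CvE-Main: the distribution of the numbers of points of the fibres

`fibres`: let `B` be the maximum of the bounds `B_i` of `LineHyp` for the `P i` (and of the `r
i`). For `m ∈ [0, B] ^ s` let `N_m` be the function of
`LineHyp` for `tup P m` (`tup_pr`, `tup_fin`). By `tup_card` and `inv_all`
`∏ (r i)! B! * #{x | ∀ i, nf (P i) x = r i} = ∑_m (∏ wt B (r i) (m i)) N_m`. So the function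
`N p a = (∑_m ... N_m p a).toNat / ∏ (r i)! B!` has the required values; it is definable
(`ZF.sum`, `ZF.mul`, `ZF.const`, `ZF.toNat`,
division by a constant: `DFun.ofGraph` or the division lemma of the library). If some `r i` is
larger than
the bound of `P i` the number is `0` (included when `B ≥ r i`).

`values`: in particular for the number of the `x` with a nonempty fibre for each `i ∈ A` and an
empty fibre for `i ∉ A`: sum over the `r`.
-/

set_option autoImplicit false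

noncomputable section

namespace Pool.Agent.CvE

open Pool.Agent.PRc Pool.Agent.Grz

/-- division by a positive constant -/
private theorem divConst_Main {n : ℕ} {f : (Fin n → ℕ) → ℕ} (hf : DFun n f) {K : ℕ}
    (hK : 0 < K) : DFun n (fun v => f v / K) := by
  obtain ⟨c, rfl⟩ : ∃ c, K = c + 1 := ⟨K - 1, by omega⟩
  exact hf.div (DFun.const c)

/-- the main identity -/
private theorem key_Main {s : ℕ} (κ : Fin s → Type) [∀ i, Finite (κ i)] (ι : Type)
    (P : ∀ i, FR ((Unit ⊕ κ i) ⊕ ι)) (r : Fin s → ℕ) (B : ℕ) (hr : ∀ i, r i ≤ B)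
    (p : ℕ) [Fact p.Prime] (a : ι → ℕ) (hB : ∀ i x, nf (P i) p a x ≤ B)
    (Nm : (Fin s → ℕ) → ℕ)
    (hN : ∀ m, Nm m = Nat.card {z : ZMod p × (Ti κ m → ZMod p) //
      tup P m (ZMod p) (pt z.1 z.2 fun i => (a i : ZMod p))}) :
    ∑ m ∈ Fintype.piFinset fun _ : Fin s => Finset.range (B + 1),
      (∏ i, wt B (r i) (m i)) * (Nm m : ℤ) =
    ((Nat.card {x : ZMod p // ∀ i, nf (P i) p a x = r i} *
      ∏ i, ((r i).factorial * B.factorial) : ℕ) : ℤ) := by
  classical
  have h1 : ∀ m, (Nm m : ℤ) =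
      ∑ x : ZMod p, ((∏ i, (nf (P i) p a x).descFactorial (m i) : ℕ) : ℤ) := by
    intro m
    rw [hN, tup_card, Nat.cast_sum]
  simp_rw [h1, Finset.mul_sum]
  rw [Finset.sum_comm]
  have h2 : ∀ x : ZMod p, ∑ m ∈ Fintype.piFinset fun _ : Fin s => Finset.range (B + 1),
      (∏ i, wt B (r i) (m i)) *
        ((∏ i, (nf (P i) p a x).descFactorial (m i) : ℕ) : ℤ) =
      if ∀ i, nf (P i) p a x = r i then
        ((∏ i, ((r i).factorial * B.factorial) : ℕ) : ℤ) else 0 := by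
    intro x
    rw [inv_all (fun i => hB i x) hr]
    by_cases h : ∀ i, nf (P i) p a x = r i
    · rw [if_pos h, if_pos (funext h)]
    · rw [if_neg h, if_neg (fun h' => h fun i => congrFun h' i)]
  rw [Finset.sum_congr rfl fun x _ => h2 x, ← Finset.sum_filter, Finset.sum_const, nsmul_eq_mul,
    Nat.card_eq_fintype_card, Fintype.card_subtype, Nat.cast_mul]

theorem fibres (H : LineHyp) {s : ℕ} (κ : Fin s → Type) [∀ i, Finite (κ i)] (ι : Type) [Finite ι]
    (P : ∀ i, FR ((Unit ⊕ κ i) ⊕ ι)) (hP : ∀ i, PRD (P i)) (r : Fin s → ℕ) :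
    ∃ N : ℕ → (ι → ℕ) → ℕ,
      (∀ {n : ℕ} {p : (Fin n → ℕ) → ℕ} {a : ι → (Fin n → ℕ) → ℕ}, DFun n p →
        (∀ i, DFun n (a i)) → DFun n (fun v => N (p v) fun i => a i v)) ∧
      ∀ (p : ℕ) [Fact p.Prime] (a : ι → ℕ), (∀ i, FibFin (P i) p a) →
        N p a = Nat.card {x : ZMod p // ∀ i, nf (P i) p a x = r i} := by
  classical
  have hA : ∀ i, ∃ B : ℕ, ∀ (p : ℕ) [Fact p.Prime] (a : ι → ℕ), FibFin (P i) p a →
      ∀ x, nf (P i) p a x ≤ B := by
    intro i
    obtain ⟨_, B, _, h2⟩ := H (κ i) ι (P i) (hP i)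
    exact ⟨B, fun p _ a h => (h2 p a h).1⟩
  choose B0 hB0 using hA
  have hM : ∀ m : Fin s → ℕ, ∃ N : ℕ → (ι → ℕ) → ℕ,
      (∀ (n : ℕ) (p : (Fin n → ℕ) → ℕ) (a : ι → (Fin n → ℕ) → ℕ), DFun n p →
        (∀ i, DFun n (a i)) → DFun n (fun v => N (p v) fun i => a i v)) ∧
      ∀ (p : ℕ) [Fact p.Prime] (a : ι → ℕ), FibFin (tup P m) p a →
        N p a = Nat.card {z : ZMod p × (Ti κ m → ZMod p) //
          tup P m (ZMod p) (pt z.1 z.2 fun i => (a i : ZMod p))} := by
    intro m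
    obtain ⟨N, _, h1, h2⟩ := H (Ti κ m) ι (tup P m) (tup_pr hP m)
    exact ⟨N, fun n p a hp ha => h1 hp ha, fun p _ a h => (h2 p a h).2⟩
  choose Nm hNd hNc using hM
  set B : ℕ := (∑ i, B0 i) + ∑ i, r i with hBdef
  have hBi : ∀ i, B0 i ≤ B := fun i =>
    (Finset.single_le_sum (f := B0) (fun _ _ => Nat.zero_le _) (Finset.mem_univ i)).trans
      (Nat.le_add_right _ _)
  have hri : ∀ i, r i ≤ B := fun i =>
    (Finset.single_le_sum (f := r) (fun _ _ => Nat.zero_le _) (Finset.mem_univ i)).trans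
      (Nat.le_add_left _ _)
  set K : ℕ := ∏ i, ((r i).factorial * B.factorial) with hK
  have hKpos : 0 < K := Finset.prod_pos fun i _ =>
    Nat.mul_pos (Nat.factorial_pos _) (Nat.factorial_pos _)
  refine ⟨fun p a => (∑ m ∈ Fintype.piFinset fun _ : Fin s => Finset.range (B + 1),
    (∏ i, wt B (r i) (m i)) * (Nm m p a : ℤ)).toNat / K, ?_, ?_⟩
  · intro n p a hp ha
    refine divConst_Main ?_ hKpos
    refine Pool.Agent.MTr.ZF.toNat ?_
    exact Pool.Agent.MTr.ZF.sum _ fun m =>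
      (Pool.Agent.MTr.ZF.const _).mul (Pool.Agent.MTr.ZF.nat (hNd m n p a hp ha))
  · intro p _ a h
    have h1 := key_Main κ ι P r B hri p a (fun i x => (hB0 i p a (h i) x).trans (hBi i))
      (fun m => Nm m p a) (fun m => hNc m p a (tup_fin m p a h))
    change (∑ m ∈ Fintype.piFinset fun _ : Fin s => Finset.range (B + 1),
      (∏ i, wt B (r i) (m i)) * (Nm m p a : ℤ)).toNat / K = _
    rw [h1, Int.toNat_natCast, Nat.mul_div_cancel _ hKpos]

end Pool.Agent.CvE
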