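import Pool.Agent.CvE.Defs

/-!
# Package CvE-Tup: tuples of points of the fibres

`tup_pr`: `tup P m` is `PRD`: `PRD.all` over `Finset.univ` (sets of pairs `(i, j)`, triples `(i,
j, j')`; a condition `j ≠ j'` on
indices is decided outside: take the finite set of the triples with `j ≠ j'`), `PRD.comp` for `P
i` (the substitution is a
coordinate: `PRF.var`), `PRD.any`, `PRD.eq`, `PRD.not`. `Ti κ m` is finite (`inferInstance`).

`tup_fin`: if all `P i` have finite geometric fibres then so has `tup P m`: the map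
`t ↦ (t_(i,j))_(i,j)` to the product of the finite sets is injective (`Set.Finite.pi`,
`Set.Finite.preimage`).
-/

set_option autoImplicit false

noncomputable section

namespace Pool.Agent.CvE

open Pool.Agent.PRc Pool.Agent.Grz

variable {s : ℕ} {κ : Fin s → Type} [∀ i, Finite (κ i)] {ι : Type}
  {P : ∀ i, FR ((Unit ⊕ κ i) ⊕ ι)}

private theorem all_Tup {ι α : Type} [Finite α] {P : α → FR ι} (hP : ∀ a, PRD (P a)) :
    PRD (fun k _ x => ∀ a, P a k x) := by
  have := Fintype.ofFinite α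
  exact (PRD.all Finset.univ (P := P) fun a _ => hP a).congr fun k _ x => by simp

private theorem ex_Tup {ι α : Type} [Finite α] {P : α → FR ι} (hP : ∀ a, PRD (P a)) :
    PRD (fun k _ x => ∃ a, P a k x) := by
  have := Fintype.ofFinite α
  exact (PRD.any Finset.univ (P := P) fun a _ => hP a).congr fun k _ x => by simp

private def G_Tup {s : ℕ} {κ : Fin s → Type} {ι : Type} (m : Fin s → ℕ) (i : Fin s)
    (j : Fin (m i)) : (Unit ⊕ κ i) ⊕ ι → FF ((Unit ⊕ Ti κ m) ⊕ ι) :=
  Sum.elim (Sum.elim (fun _ _ _ u => u (.inl (.inl ())))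
    (fun l _ _ u => u (.inl (.inr ⟨i, j, l⟩)))) (fun e _ _ u => u (.inr e))

theorem tup_pr (hP : ∀ i, PRD (P i)) (m : Fin s → ℕ) : PRD (tup P m) := by
  have h1 : PRD (ι := (Unit ⊕ Ti κ m) ⊕ ι) (fun k _ u => ∀ i (j : Fin (m i)), P i k
      (pt (u (.inl (.inl ()))) (fun l => u (.inl (.inr ⟨i, j, l⟩))) fun e => u (.inr e))) := by
    refine all_Tup fun i => all_Tup fun j => ?_
    have hG : ∀ q, PRF (G_Tup (κ := κ) (ι := ι) m i j q) := by
      rintro ((q | q) | q) <;> exact PRF.var _
    refine ((hP i).comp hG).congr fun k _ x => ?_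
    have e : (fun q => G_Tup (κ := κ) (ι := ι) m i j q k x) =
        pt (x (.inl (.inl ()))) (fun l => x (.inl (.inr ⟨i, j, l⟩))) fun e => x (.inr e) := by
      funext q
      rcases q with (q | q) | q <;> rfl
    rw [e]
  have h2 : PRD (ι := (Unit ⊕ Ti κ m) ⊕ ι) (fun k _ u => ∀ i (j j' : Fin (m i)), j ≠ j' →
      ∃ l, u (.inl (.inr ⟨i, j, l⟩)) ≠ u (.inl (.inr ⟨i, j', l⟩))) := by
    refine all_Tup fun i => all_Tup fun j => all_Tup fun j' => ?_
    by_cases hj : j = j'
    · exact PRD.true.congr fun k _ x => by simp [hj]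
    · exact (ex_Tup fun l => (PRD.eq (PRF.var _) (PRF.var _)).not).congr
        fun k _ x => ⟨fun hh => hh hj, fun hh _ => hh⟩
  exact h1.and h2

theorem tup_fin (m : Fin s → ℕ) (p : ℕ) [Fact p.Prime] (a : ι → ℕ)
    (h : ∀ i, FibFin (P i) p a) : FibFin (tup P m) p a := by
  intro x
  have h1 : (Set.pi Set.univ fun q : (Σ i, Fin (m i)) =>
      {t : κ q.1 → AlgebraicClosure (ZMod p) | P q.1 (AlgebraicClosure (ZMod p))
        (pt x t fun i => (a i : AlgebraicClosure (ZMod p)))}).Finite :=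
    Set.Finite.pi fun q => h q.1 x
  let f : (Ti κ m → AlgebraicClosure (ZMod p)) →
      (∀ q : (Σ i, Fin (m i)), κ q.1 → AlgebraicClosure (ZMod p)) :=
    fun t q l => t ⟨q.1, q.2, l⟩
  have hf : Function.Injective f := by
    intro t t' e
    funext r
    obtain ⟨i, j, l⟩ := r
    exact congrFun (congrFun e ⟨i, j⟩) l
  refine (h1.preimage hf.injOn).subset ?_
  intro t ht q _
  exact ht.1 q.1 q.2

end Pool.Agent.CvE
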